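import Mathlib
import Pool.Agent.H17.Cyclo

set_option autoImplicit false

namespace Pool.Agent.Results.MP_086516_nt.Meets

noncomputable def zeta (k : ℕ) : ℂ := Complex.exp (2 * Real.pi * Complex.I / k)

def A (k : ℕ) : Set (Fin k.totient → ℤ) :=
  {a | ∃ u : ℂ, u ^ k = 1 ∧ u = ∑ j : Fin k.totient, (a j : ℂ) * zeta k ^ (j : ℕ)}

noncomputable def F (k : ℕ) (x : Fin k.totient → ℂ) : ℂ := ∑ᶠ a ∈ A k, ∏ j, x j ^ a j

open Pool.Agent.H17.Cyclo in
theorem result (k : ℕ) (hk : 1 ≤ k) : (A k).ncard = k ∧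
    ∃ (x₀ : ℂ) (x : Fin k.totient → ℂ), ‖x₀‖ = 1 ∧ (∀ j, ‖x j‖ = 1) ∧ x₀ + F k x = 0 := by
  have hζ : IsPrimitiveRoot (zeta k) k := Complex.isPrimitiveRoot_exp k (by omega)
  have hA : A k = {a | (∑ j : Fin k.totient, (a j : ℂ) * zeta k ^ (j : ℕ)) ^ k = 1} := by
    ext a
    simp [A]
  have hb := bij k hk _ hζ
  rw [← hA] at hb
  refine ⟨by rw [hb.ncard_eq, Set.ncard_coe_finset, hζ.card_nthRootsFinset], ?_⟩
  obtain ⟨w, t, h⟩ := roots k hk
  refine ⟨-1, fun j => Complex.exp (Complex.I * (t * (zeta k ^ (j : ℕ) * w).im : ℝ)), by simp,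
    fun j => Complex.norm_exp_I_mul_ofReal _, ?_⟩
  rw [F, finsum_mem_eq_of_bijOn (g := fun u : ℂ =>
    Complex.exp (Complex.I * (t * (u * w).im : ℝ))) _ hb, finsum_mem_coe_finset, h]
  · simp
  · intro a _
    simp only [← Complex.exp_int_mul, ← Complex.exp_sum]
    congr 1
    rw [Finset.sum_mul, Complex.im_sum, Finset.mul_sum, Complex.ofReal_sum, Finset.mul_sum]
    refine Finset.sum_congr rfl fun j _ => ?_
    rw [mul_assoc (a j : ℂ), ← Complex.ofReal_intCast, Complex.im_ofReal_mul]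
    push_cast
    ring

end Pool.Agent.Results.MP_086516_nt.Meets
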